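import Mathlib
import Pool.Agent.MP_e25d14_pr.Walk

/-!
The square-root logarithmic bound for surprise probabilities fails for general (non-lazy)
finite reversible chains, and so does every bound with an exponent smaller than one.
-/

namespace Pool.Agent.Results.MP_e25d14_pr.Disproof

open Finset Pool.Agent.MP_e25d14_pr

theorem exists_large (b : ℝ) (hb0 : 0 < b) (hb1 : b < 1) (C : ℝ) (hC : 0 < C) :
    ∃ n : ℕ, 1 ≤ n ∧ C / n * (2 * n * Real.log (2 * n)) ^ b < 1 / 2 := by
  set ε : ℝ := (1 - b) / (2 * b) with hε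
  have hεpos : 0 < ε := by
    rw [hε]
    apply div_pos <;> linarith
  set c : ℝ := (1 - b) / 2 with hc
  have hcpos : 0 < c := by
    rw [hc]
    linarith
  have hbe : b * (1 + ε) = 1 - c := by
    rw [hε, hc]
    field_simp
    ring
  set K : ℝ := 2 * C * (1 / ε) ^ b with hK
  have hKpos : 0 < K := by
    rw [hK]
    positivity
  have htend : Filter.Tendsto (fun n : ℕ => K * (2 * (n : ℝ)) ^ (-c)) Filter.atTop
      (nhds (K * 0)) := by
    apply Filter.Tendsto.const_mul
    have h1 : Filter.Tendsto (fun n : ℕ => 2 * (n : ℝ)) Filter.atTop Filter.atTop :=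
      Filter.Tendsto.const_mul_atTop (by norm_num) tendsto_natCast_atTop_atTop
    exact (tendsto_rpow_neg_atTop hcpos).comp h1
  rw [mul_zero] at htend
  have hev := (htend.eventually (gt_mem_nhds (show (0 : ℝ) < 1 / 2 by norm_num))).and
    (Filter.eventually_ge_atTop 1)
  obtain ⟨n, hn1, hn2⟩ := hev.exists
  refine ⟨n, hn2, lt_of_le_of_lt ?_ hn1⟩
  have hn' : (1 : ℝ) ≤ n := by exact_mod_cast hn2
  set x : ℝ := 2 * (n : ℝ) with hx
  have hx1 : 1 ≤ x := by
    rw [hx]
    linarith
  have hx0 : 0 < x := by linarith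
  have hlog : Real.log x ≤ x ^ ε / ε := Real.log_le_rpow_div hx0.le hεpos
  have hlog0 : 0 ≤ Real.log x := Real.log_nonneg hx1
  have h1 : x * Real.log x ≤ x ^ (1 + ε) * (1 / ε) := by
    calc x * Real.log x ≤ x * (x ^ ε / ε) := mul_le_mul_of_nonneg_left hlog hx0.le
      _ = x ^ (1 + ε) * (1 / ε) := by
          rw [Real.rpow_add hx0, Real.rpow_one]
          ring
  have h2 : (x * Real.log x) ^ b ≤ x ^ (1 - c) * (1 / ε) ^ b := by
    calc (x * Real.log x) ^ b ≤ (x ^ (1 + ε) * (1 / ε)) ^ b := by
          apply Real.rpow_le_rpow _ h1 hb0.le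
          positivity
      _ = x ^ (1 - c) * (1 / ε) ^ b := by
          rw [Real.mul_rpow (by positivity) (by positivity), ← Real.rpow_mul hx0.le,
            mul_comm (1 + ε) b, hbe]
  have h3 : x ^ (1 - c) = x * x ^ (-c) := by
    rw [sub_eq_add_neg, Real.rpow_add hx0, Real.rpow_one]
  calc C / n * (x * Real.log x) ^ b ≤ C / n * (x ^ (1 - c) * (1 / ε) ^ b) := by
        apply mul_le_mul_of_nonneg_left h2
        positivity
    _ = K * x ^ (-c) := by
        rw [h3, hK, hx]
        field_simp

/-- For every real `a < 1` and every `C` there are a finite irreducible reversible chain,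
states `x, y` and a time `t ≥ 1` with
`P_x(τ(y) = t) > (C / t) * max(1, log(1/π(x))) ^ a`. -/
theorem result : ∀ a : ℝ, a < 1 → ∀ C : ℝ,
    ∃ (S : Type) (_ : Fintype S) (_ : DecidableEq S) (P : Matrix S S ℝ) (π : S → ℝ),
      IsReversibleChain P π ∧ ∃ (x y : S) (t : ℕ), 1 ≤ t ∧
        C / t * (max 1 (Real.log (1 / π x))) ^ a < hitProb P x y t := by
  intro a ha C
  set b : ℝ := max a (1 / 2) with hb
  set C' : ℝ := max C 1 with hC'
  have hb0 : 0 < b := lt_of_lt_of_le (by norm_num) (le_max_right _ _)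
  have hb1 : b < 1 := max_lt ha (by norm_num)
  have hC0 : 0 < C' := lt_of_lt_of_le one_pos (le_max_right _ _)
  obtain ⟨n, hn, hlt⟩ := exists_large b hb0 hb1 C' hC0
  have hn' : (1 : ℝ) ≤ n := by exact_mod_cast hn
  have hδ0 : (0 : ℝ) < 1 / (2 * n) := by positivity
  have hδ1 : (1 : ℝ) / (2 * n) < 1 := by
    rw [div_lt_one (by positivity)]
    linarith
  refine ⟨Fin (n + 1), inferInstance, inferInstance, walk n (1 / (2 * n)),
    statLaw n (1 / (2 * n)), walk_rev n hδ0 hδ1, ⟨0, by omega⟩, Fin.last n, n, hn, ?_⟩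
  have hM := log_bound n hn
  set M : ℝ := max 1 (Real.log (1 / statLaw n (1 / (2 * n)) ⟨0, by omega⟩)) with hMdef
  have hM1 : 1 ≤ M := le_max_left _ _
  have hlow := hit_half n hn
  refine lt_of_lt_of_le ?_ hlow
  refine lt_of_le_of_lt ?_ hlt
  calc C / n * M ^ a ≤ C' / n * M ^ b := by
        apply mul_le_mul
        · apply div_le_div_of_nonneg_right (le_max_left _ _)
          positivity
        · exact Real.rpow_le_rpow_of_exponent_le hM1 (le_max_left _ _)
        · positivity
        · positivity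
    _ ≤ C' / n * (2 * n * Real.log (2 * n)) ^ b := by
        apply mul_le_mul_of_nonneg_left
        · exact Real.rpow_le_rpow (by linarith) hM hb0.le
        · positivity

end Pool.Agent.Results.MP_e25d14_pr.Disproof
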