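import Mathlib
import Pool.Agent.MP_e25d14_pr.Reg

/-!
The square-root logarithmic bound for surprise probabilities holds for all finite reversible
chains whose holding probabilities are bounded below.
-/

namespace Pool.Agent.Results.MP_e25d14_pr.HoldingBound

open Pool.Agent.MP_e25d14_pr

/-- If `P z z ≥ γ` for all states `z`, where `0 < γ ≤ 1/2`, then
`P_x(τ(y) = t) ≤ (2 / (γ t)) * √(max(1, log(1/π(x))))` for all `x, y` and `t ≥ 1`. -/
theorem result (S : Type) [Fintype S] [DecidableEq S] (P : Matrix S S ℝ) (π : S → ℝ)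
    (hch : IsReversibleChain P π) (γ : ℝ) (hγ0 : 0 < γ) (hγ1 : γ ≤ 1 / 2)
    (hlazy : ∀ z, γ ≤ P z z) (x y : S) (t : ℕ) (ht : 1 ≤ t) :
    hitProb P x y t ≤ 2 / (γ * t) * √(max 1 (Real.log (1 / π x))) :=
  hit_bound hch hγ0 hγ1 hlazy x y t ht

end Pool.Agent.Results.MP_e25d14_pr.HoldingBound
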