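import Mathlib
import Pool.Agent.MP_e25d14_pr.Walk
import Pool.Agent.MP_e25d14_pr.General

/-!
The exact order, in terms of `π x`, of the largest possible value of `t * P_x(τ(y) = t)` over all
finite reversible chains.
-/

namespace Pool.Agent.Results.MP_e25d14_pr.SharpOrder

open Finset Pool.Agent.MP_e25d14_pr

/-- Write `M = max(1, log(1/π(x)))`.  For every finite reversible chain, all states `x, y` and all
`t ≥ 1` one has `P_x(τ(y) = t) ≤ (80 / t) * M / log(1 + M)`; and there are finite reversible chains,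
states and times with `log(1/π(x))` arbitrarily large and
`P_x(τ(y) = t) ≥ (1 / (4 t)) * M / log(1 + M)`. -/
theorem result :
    (∀ (S : Type) (_ : Fintype S) (_ : DecidableEq S) (P : Matrix S S ℝ) (π : S → ℝ),
      IsReversibleChain P π → ∀ (x y : S) (t : ℕ), 1 ≤ t →
        hitProb P x y t ≤ 80 / t * (max 1 (Real.log (1 / π x)) /
          Real.log (1 + max 1 (Real.log (1 / π x))))) ∧
    (∀ K : ℝ, ∃ (S : Type) (_ : Fintype S) (_ : DecidableEq S) (P : Matrix S S ℝ) (π : S → ℝ),
      IsReversibleChain P π ∧ ∃ (x y : S) (t : ℕ), 1 ≤ t ∧ K ≤ Real.log (1 / π x) ∧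
        1 / (4 * t) * (max 1 (Real.log (1 / π x)) /
          Real.log (1 + max 1 (Real.log (1 / π x)))) ≤ hitProb P x y t) := by
  refine ⟨fun S _ _ P π hch x y t ht => hit_bound_gen hch x y t ht, ?_⟩
  intro K
  obtain ⟨n, hn5, hnK⟩ : ∃ n : ℕ, 5 ≤ n ∧ K ≤ n := by
    obtain ⟨m, hm⟩ := exists_nat_ge K
    refine ⟨max 5 m, le_max_left _ _, le_trans hm ?_⟩
    exact_mod_cast le_max_right 5 m
  have hn1 : 1 ≤ n := by omega
  have hn' : (5 : ℝ) ≤ n := by exact_mod_cast hn5
  have hδ0 : (0 : ℝ) < 1 / (2 * n) := by positivity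
  have hδ1 : (1 : ℝ) / (2 * n) < 1 := by
    rw [div_lt_one (by positivity)]
    linarith
  have hlow := hit_half n hn1
  have hup := log_bound n hn1
  have hlo := log_lower n hn1
  set L : ℝ := Real.log (1 / statLaw n (1 / (2 * n)) ⟨0, by omega⟩) with hL
  set M : ℝ := max 1 L with hM
  have hlog2 : 2 ≤ Real.log (2 * n - 1) := by
    rw [Real.le_log_iff_exp_le (by linarith)]
    have h1 : Real.exp 2 = Real.exp 1 * Real.exp 1 := by
      rw [← Real.exp_add]
      norm_num
    have h2 := Real.exp_one_lt_d9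
    have h3 := Real.exp_pos 1
    nlinarith
  have hL2 : 2 * (n : ℝ) ≤ L := by nlinarith
  refine ⟨Fin (n + 1), inferInstance, inferInstance, walk n (1 / (2 * n)),
    statLaw n (1 / (2 * n)), walk_rev n hδ0 hδ1, ⟨0, by omega⟩, Fin.last n, n, hn1, ?_, ?_⟩
  · rw [← hL]
    linarith
  · refine le_trans ?_ hlow
    rw [← hL, ← hM]
    have hLM : L ≤ M := le_max_right _ _
    have hM0 : 0 < M := lt_of_lt_of_le one_pos (le_max_left _ _)
    have hlogM : 0 < Real.log (1 + M) := Real.log_pos (by linarith)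
    have h1 : Real.log (2 * n) ≤ Real.log (1 + M) :=
      Real.log_le_log (by linarith) (by linarith)
    have h2 : M ≤ 2 * n * Real.log (1 + M) := by
      calc M ≤ 2 * n * Real.log (2 * n) := hup
        _ ≤ 2 * n * Real.log (1 + M) := mul_le_mul_of_nonneg_left h1 (by linarith)
    have h3 : M / Real.log (1 + M) ≤ 2 * n := by
      rw [div_le_iff₀ hlogM]
      exact h2
    calc 1 / (4 * (n : ℝ)) * (M / Real.log (1 + M)) ≤ 1 / (4 * (n : ℝ)) * (2 * n) :=
          mul_le_mul_of_nonneg_left h3 (by positivity)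
      _ = 1 / 2 := by
          field_simp
          norm_num

end Pool.Agent.Results.MP_e25d14_pr.SharpOrder
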